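import Mathlib
import Pool.Agent.MT100G.Stmts

/-!
# PRM: permanence of relations under continuation
-/

set_option autoImplicit false

open Matrix Polynomial Pool.Agent.MT100 Pool.Agent.Helper78_MT Filter Topology

namespace Pool.Agent.MT100G.H87

/-- polynomials in differentiable functions are differentiable -/
theorem differentiableOn_eval {σ : Type*} (Φ : MvPolynomial σ ℂ) (g : ℂ → σ → ℂ) (U : Set ℂ)
    (hg : ∀ s, DifferentiableOn ℂ (fun w => g w s) U) :
    DifferentiableOn ℂ (fun w => MvPolynomial.eval (g w) Φ) U := by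
  induction Φ using MvPolynomial.induction_on with
  | C a => simp only [MvPolynomial.eval_C]; exact differentiableOn_const a
  | add p q hp hq => simp only [map_add]; exact hp.add hq
  | mul_X p s hp => simp only [map_mul, MvPolynomial.eval_X]; exact hp.mul (hg s)

theorem differentiableOn_vr {ι d : Type} {L : ℂ → ℂ} {Y : ι → ℂ → Matrix d d ℂ} {U : Set ℂ}
    (hL : DifferentiableOn ℂ L U) (hY : ∀ i a b, DifferentiableOn ℂ (fun w => Y i w a b) U)
    (Φ : MvPolynomial (Bool ⊕ (ι × d × d)) ℂ) :
    DifferentiableOn ℂ (fun w => MvPolynomial.eval (vr w (L w) fun i => Y i w) Φ) U := by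
  apply differentiableOn_eval
  rintro (b | x)
  · cases b
    · exact differentiableOn_id
    · exact hL
  · exact hY x.1 x.2.1 x.2.2

/-- the identity theorem -/
theorem eqOn_zero {f : ℂ → ℂ} {U : Set ℂ} (hU : IsOpen U) (hc : IsPreconnected U)
    (hf : DifferentiableOn ℂ f U) {z : ℂ} (hz : z ∈ U) (h : ∃ᶠ w in 𝓝[≠] z, f w = 0) :
    ∀ w ∈ U, f w = 0 := by
  have h1 : AnalyticOnNhd ℂ f U := hf.analyticOnNhd hU
  have h2 := h1.eqOn_zero_of_preconnected_of_frequently_eq_zero hc hz h
  intro w hw
  exact h2 hw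

theorem eqOn_zero_of_open {f : ℂ → ℂ} {U V : Set ℂ} (hU : IsOpen U) (hc : IsPreconnected U)
    (hf : DifferentiableOn ℂ f U) (hV : IsOpen V) (hVn : V.Nonempty) (hVU : V ⊆ U)
    (h : ∀ w ∈ V, f w = 0) : ∀ w ∈ U, f w = 0 := by
  obtain ⟨z, hz⟩ := hVn
  refine eqOn_zero hU hc hf (hVU hz) ?_
  apply Eventually.frequently
  exact (eventually_nhdsWithin_of_eventually_nhds
    ((hV.mem_nhds hz : V ∈ 𝓝 z))).mono (fun w hw => h w hw)

theorem solOn_differentiableOn {d : Type*} [Fintype d] [DecidableEq d] {q : ℤ[X]}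
    {B : Matrix d d ℤ[X]} {c : ℂ} {ρ : ℝ} {Y : ℂ → Matrix d d ℂ} (h : SolOn q B c ρ Y) (a b : d) :
    DifferentiableOn ℂ (fun w => Y w a b) (Metric.ball c ρ) := fun w hw =>
  (h.ode w hw a b).differentiableAt.differentiableWithinAt

theorem sub_mem_ball {c w : ℂ} {ρ : ℝ} (k : ℂ) (hw : w ∈ Metric.ball c ρ) :
    w - k ∈ Metric.ball (c - k) ρ := by
  rw [Metric.mem_ball] at hw ⊢
  rwa [dist_sub_right]

theorem shift_differentiableOn {f : ℂ → ℂ} {c : ℂ} {ρ : ℝ} (k : ℂ)
    (h : DifferentiableOn ℂ f (Metric.ball (c - k) ρ)) :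
    DifferentiableOn ℂ (fun w => f (w - k)) (Metric.ball c ρ) :=
  h.comp (differentiableOn_id.sub (differentiableOn_const k)) (fun _ hw => sub_mem_ball k hw)

/-- PRM -/
theorem prm (hB : BasStmt) : PrmStmt := by
  intro d _ _ F ι _ κ
  obtain ⟨R, hR, hsol, -⟩ := hB d F.H F.K F.N F.q F.B F.sys
  set m : ℕ := Finset.univ.sup κ with hm
  have hκ : ∀ i, κ i ≤ m := fun i => Finset.le_sup (Finset.mem_univ i)
  set R0 : ℝ := R + m with hR0
  set U : Set ℂ := {w | R0 < w.re} with hU
  have hUo : IsOpen U := isOpen_lt continuous_const Complex.continuous_re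
  have hUc : Convex ℝ U := convex_halfSpace_re_gt R0
  have hUp : IsPreconnected U := hUc.isPreconnected
  have hm0 : (0 : ℝ) ≤ m := Nat.cast_nonneg m
  -- the functions are holomorphic on the half plane
  have hlog : DifferentiableOn ℂ Complex.log U := by
    intro w hw
    have hw' : R0 < w.re := hw
    exact (Complex.differentiableAt_log (Or.inl (by linarith))).differentiableWithinAt
  have hYH : ∀ i a b, DifferentiableOn ℂ (fun w => YH F.H F.N (w - κ i) a b) U := by
    intro i a b w hw
    have hw' : R0 < w.re := hw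
    have hk : ((κ i : ℕ) : ℝ) ≤ m := by exact_mod_cast hκ i
    have h1 : R < (w - κ i).re := by
      rw [Complex.sub_re, Complex.natCast_re]
      linarith
    have h2 : Metric.ball (w - κ i) ((w - κ i).re - R) ⊆ {w : ℂ | R < w.re} := by
      intro v hv
      rw [Metric.mem_ball, dist_eq_norm] at hv
      have h3 := (Complex.abs_re_le_norm (v - (w - κ i))).trans_lt hv
      rw [Complex.sub_re] at h3
      have h4 := (abs_lt.1 h3).1
      change R < v.re
      linarith
    have h3 := hsol (w - κ i) ((w - κ i).re - R) (by linarith) h2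
    have h4 : DifferentiableAt ℂ (fun x => YH F.H F.N x a b) (w - κ i) :=
      (h3.ode (w - κ i) (Metric.mem_ball_self (by linarith)) a b).differentiableAt
    have h5 : DifferentiableAt ℂ (fun w : ℂ => w - κ i) w :=
      differentiableAt_id.sub (differentiableAt_const _)
    exact (h4.comp w h5).differentiableWithinAt
  refine ⟨R0, ?_⟩
  intro Φ hΦ t ht
  -- the relation holds in the half plane
  have h0 : ∀ w ∈ U, MvPolynomial.eval (vr w (Complex.log w)
      fun i => YH F.H F.N (w - κ i)) Φ = 0 := by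
    obtain ⟨a, ha⟩ := Filter.eventually_atTop.1 hΦ
    set x0 : ℝ := max a R0 + 1 with hx0
    have hx0a : a < x0 := by
      have := le_max_left a R0
      linarith
    have hx0R : R0 < x0 := by
      have := le_max_right a R0
      linarith
    refine eqOn_zero hUo hUp (differentiableOn_vr (L := Complex.log)
      (Y := fun i w => YH F.H F.N (w - κ i)) hlog hYH Φ) (z := (x0 : ℂ)) ?_ ?_
    · change R0 < (x0 : ℂ).re
      rwa [Complex.ofReal_re]
    · have h1 : ∃ᶠ x : ℝ in 𝓝[≠] x0, MvPolynomial.eval (vr (x : ℂ) (Complex.log x)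
          fun i => YH F.H F.N ((x : ℂ) - κ i)) Φ = 0 := by
        apply Eventually.frequently
        apply eventually_nhdsWithin_of_eventually_nhds
        filter_upwards [lt_mem_nhds hx0a] with x hx
        exact ha x hx.le
      have h2 : Tendsto (fun x : ℝ => (x : ℂ)) (𝓝[≠] x0) (𝓝[≠] (x0 : ℂ)) := by
        apply tendsto_nhdsWithin_of_tendsto_nhds_of_eventually_within
        · exact (Complex.continuous_ofReal.tendsto x0).mono_left nhdsWithin_le_nhds
        · filter_upwards [self_mem_nhdsWithin] with x hx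
          intro h
          exact hx (Complex.ofReal_injective h)
      exact h2.frequently h1
  -- along a chain
  obtain ⟨c, hc, hchain⟩ : ∃ c : ℝ, R0 + 1 < c ∧ CntT F.q F.B κ
      ((c : ℂ), 1, (fun _ => YH F.H F.N), Complex.log)
      ((c : ℂ), 1, (fun i w => YH F.H F.N w * t.1 i),
        fun w => Complex.log w + 2 * Real.pi * Complex.I * t.2) := by
    have h1 : ∀ᶠ c : ℝ in atTop, R0 + 1 < c := eventually_gt_atTop _
    obtain ⟨c, h2, h3⟩ := (h1.and ht).exists
    exact ⟨c, h2, h3⟩
  have hball : Metric.ball (c : ℂ) 1 ⊆ U := by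
    intro v hv
    rw [Metric.mem_ball, dist_eq_norm] at hv
    have h3 := (Complex.abs_re_le_norm (v - c)).trans_lt hv
    rw [Complex.sub_re, Complex.ofReal_re] at h3
    have h4 := (abs_lt.1 h3).1
    change R0 < v.re
    linarith
  have hstep : ∀ x y : ℂ × ℝ × (ι → ℂ → Matrix d d ℂ) × (ℂ → ℂ), CntT F.q F.B κ x y →
      (∀ w ∈ Metric.ball x.1 x.2.1, MvPolynomial.eval (vr w (x.2.2.2 w)
        fun i => x.2.2.1 i (w - κ i)) Φ = 0) →
      ∀ w ∈ Metric.ball y.1 y.2.1, MvPolynomial.eval (vr w (y.2.2.2 w)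
        fun i => y.2.2.1 i (w - κ i)) Φ = 0 := by
    intro x y hxy hx
    induction hxy with
    | refl => exact hx
    | @tail y z _ hyz ih =>
      obtain ⟨-, hz, hne, heq⟩ := hyz
      have hd : DifferentiableOn ℂ (fun w => MvPolynomial.eval (vr w (z.2.2.2 w)
          fun i => z.2.2.1 i (w - κ i)) Φ) (Metric.ball z.1 z.2.1) := by
        refine differentiableOn_vr (L := z.2.2.2) (Y := fun i w => z.2.2.1 i (w - κ i)) hz.2.2.2
          ?_ Φ
        intro i a b
        exact shift_differentiableOn (f := fun w => z.2.2.1 i w a b) (κ i : ℂ)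
          (solOn_differentiableOn (hz.2.1 i) a b)
      refine eqOn_zero_of_open Metric.isOpen_ball (convex_ball _ _).isPreconnected hd
        (Metric.isOpen_ball.inter Metric.isOpen_ball) hne Set.inter_subset_right ?_
      intro w hw
      rw [← ih w hw.1]
      obtain ⟨h1, h2⟩ := heq w hw
      congr 2
      rw [h2]
      congr 1
      funext i
      exact (h1 i).symm
  have hfin := hstep _ _ hchain (fun w hw => h0 w (hball hw))
  -- the final function is holomorphic on the half plane
  have hG : DifferentiableOn ℂ (fun w => MvPolynomial.eval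
      (vr w (Complex.log w + 2 * Real.pi * Complex.I * t.2)
        fun i => YH F.H F.N (w - κ i) * t.1 i) Φ) U := by
    refine differentiableOn_vr (L := fun w => Complex.log w + 2 * Real.pi * Complex.I * t.2)
      (Y := fun i w => YH F.H F.N (w - κ i) * t.1 i) (hlog.add (differentiableOn_const _)) ?_ Φ
    intro i a b
    simp only [Matrix.mul_apply]
    refine DifferentiableOn.fun_sum (fun l _ => ?_)
    exact (hYH i a l).mul (differentiableOn_const _)
  have hend := eqOn_zero_of_open hUo hUp hG Metric.isOpen_ball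
    ⟨(c : ℂ), Metric.mem_ball_self one_pos⟩ hball (fun w hw => hfin w hw)
  intro w hw
  exact hend (w : ℂ) (by change R0 < (w : ℂ).re; rwa [Complex.ofReal_re])

end Pool.Agent.MT100G.H87
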